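import Pool.Agent.W842.FKS.Core

/-!
Averaging lemma and Hall type inequality for the rounding argument.
-/

set_option autoImplicit false

namespace Pool.Agent.W842.FKS

open Finset Classical

set_option linter.unusedSectionVars false

variable {V E : Type*} [Fintype V] [Fintype E]

lemma X_nonneg (H : E → Finset V) {z : E → ℝ} (hz : ∀ f, 0 ≤ z f) (v : V) : 0 ≤ X H z v := by
  unfold X
  refine Finset.sum_nonneg fun f _ => ?_
  have := hz f
  split_ifs <;> linarith

lemma nbhd_le (H : E → Finset V) (hne : ∀ e, (H e).Nonempty) (z : E → ℝ) (hz : ∀ f, 0 ≤ z f)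
    (e : E) : (∑ f, (if Disjoint (H e) (H f) then 0 else z f)) + (((H e).card : ℝ) - 1) * z e ≤
      ∑ v ∈ H e, X H z v := by
  have h1 : ∑ v ∈ H e, X H z v = ∑ f, (((H e).filter (fun v => v ∈ H f)).card : ℝ) * z f := by
    unfold X
    rw [Finset.sum_comm]
    refine Finset.sum_congr rfl fun f _ => ?_
    rw [← Finset.sum_filter, Finset.sum_const, nsmul_eq_mul]
  have h2 : (((H e).card : ℝ) - 1) * z e = ∑ f, (if f = e then (((H e).card : ℝ) - 1) * z e else 0) := by
    simp
  rw [h1, h2, ← Finset.sum_add_distrib]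
  refine Finset.sum_le_sum fun f _ => ?_
  by_cases hfe : f = e
  · subst hfe
    have hself : ¬ Disjoint (H f) (H f) := by
      rw [disjoint_self]
      exact (hne f).ne_empty
    have h3 : (H f).filter (fun v => v ∈ H f) = H f := by
      ext v
      simp
    rw [if_neg hself, if_pos rfl, h3]
    linarith
  · rw [if_neg hfe, add_zero]
    have hzf := hz f
    split_ifs with hd
    · positivity
    · rw [Finset.not_disjoint_iff] at hd
      obtain ⟨v, hv1, hv2⟩ := hd
      have h4 : 1 ≤ ((H e).filter (fun v => v ∈ H f)).card :=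
        Finset.card_pos.2 ⟨v, Finset.mem_filter.2 ⟨hv1, hv2⟩⟩
      have h5 : (1:ℝ) ≤ (((H e).filter (fun v => v ∈ H f)).card : ℝ) := by exact_mod_cast h4
      nlinarith

lemma sum_swap (H : E → Finset V) (θ : E → ℝ) (g : V → ℝ) :
    ∑ e, θ e * ∑ v ∈ H e, g v = ∑ v, X H θ v * g v := by
  unfold X
  have h1 : ∀ e, θ e * ∑ v ∈ H e, g v = ∑ v, (if v ∈ H e then θ e else 0) * g v := by
    intro e
    rw [Finset.mul_sum]
    rw [← Finset.sum_subset (Finset.subset_univ (H e))]
    · refine Finset.sum_congr rfl fun v hv => ?_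
      rw [if_pos hv]
    · intro v _ hv
      rw [if_neg hv, zero_mul]
  rw [Finset.sum_congr rfl fun e _ => h1 e, Finset.sum_comm]
  refine Finset.sum_congr rfl fun v _ => ?_
  rw [Finset.sum_mul]

/-- Averaging over the edges with weights `θ`. -/
lemma exists_small (H : E → Finset V) (hne : ∀ e, (H e).Nonempty) (S : Finset E)
    (x r θ : E → ℝ) (hx : ∀ e, 0 ≤ x e) (hr : ∀ e, 0 ≤ r e) (hθ : ∀ e, 0 ≤ θ e)
    (hθS : ∀ e, e ∉ S → θ e = 0) (hθpos : ∃ e, 0 < θ e)
    (hav : ∑ v, X H θ v * X H (fun f => x f * r f) v ≤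
      ∑ e, θ e * (1 + (((H e).card : ℝ) - 1) * (x e * r e))) :
    ∃ e ∈ S, ∑ f, (if Disjoint (H e) (H f) then 0 else x f * r f) ≤ 1 := by
  by_contra hcon
  push Not at hcon
  have hz : ∀ f, 0 ≤ x f * r f := fun f => mul_nonneg (hx f) (hr f)
  rw [← sum_swap] at hav
  have hlt : ∑ e, θ e * (1 + (((H e).card : ℝ) - 1) * (x e * r e)) <
      ∑ e, θ e * ∑ v ∈ H e, X H (fun f => x f * r f) v := by
    obtain ⟨e0, he0⟩ := hθpos
    refine Finset.sum_lt_sum (fun e _ => ?_) ⟨e0, Finset.mem_univ _, ?_⟩
    · by_cases he : e ∈ S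
      · refine mul_le_mul_of_nonneg_left ?_ (hθ e)
        have h1 := nbhd_le H hne _ hz e
        have h2 := hcon e he
        linarith
      · rw [hθS e he, zero_mul, zero_mul]
    · have he : e0 ∈ S := by
        by_contra h
        exact he0.ne' (hθS e0 h)
      refine mul_lt_mul_of_pos_left ?_ he0
      have h1 := nbhd_le H hne _ hz e0
      have h2 := hcon e0 he
      linarith
  exact absurd hav (not_le.2 hlt)

/-- Hall type inequality from the injectivity of the tight rows. -/
lemma hall_tight (H : E → Finset V) (S : Finset E) (x : E → ℝ)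
    (hinj : ∀ d : E → ℝ, (∀ e, e ∉ S → d e = 0) → (∀ v, X H x v = 1 → X H d v = 0) → d = 0)
    (A : Finset E) (hA : A ⊆ S) :
    A.card ≤ (Finset.univ.filter (fun v => X H x v = 1 ∧ ∃ e ∈ A, v ∈ H e)).card := by
  set T := Finset.univ.filter (fun v => X H x v = 1 ∧ ∃ e ∈ A, v ∈ H e) with hT
  let ext : (A → ℝ) → (E → ℝ) := fun d e => if h : e ∈ A then d ⟨e, h⟩ else 0
  let L : (A → ℝ) →ₗ[ℝ] (T → ℝ) :=
    { toFun := fun d v => X H (ext d) v
      map_add' := by
        intro d1 d2
        funext v
        simp only [Pi.add_apply, X, ← Finset.sum_add_distrib, ext]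
        refine Finset.sum_congr rfl fun e _ => ?_
        split_ifs <;> simp
      map_smul' := by
        intro c d
        funext v
        simp only [Pi.smul_apply, X, smul_eq_mul, Finset.mul_sum, ext, RingHom.id_apply]
        refine Finset.sum_congr rfl fun e _ => ?_
        split_ifs <;> simp }
  have hLinj : Function.Injective L := by
    rw [← LinearMap.ker_eq_bot, LinearMap.ker_eq_bot']
    intro d hd
    have h1 : ext d = 0 := by
      refine hinj _ (fun e he => ?_) (fun v hv => ?_)
      · simp only [ext]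
        rw [dif_neg fun h => he (hA h)]
      · by_cases hvA : ∃ e ∈ A, v ∈ H e
        · have hvT : v ∈ T := by
            rw [hT, Finset.mem_filter]
            exact ⟨Finset.mem_univ _, hv, hvA⟩
          have := congrFun hd ⟨v, hvT⟩
          exact this
        · unfold X
          refine Finset.sum_eq_zero fun e _ => ?_
          split_ifs with hve
          · simp only [ext]
            rw [dif_neg fun h => hvA ⟨e, h, hve⟩]
          · rfl
    funext ⟨e, he⟩
    have := congrFun h1 e
    simp only [ext, dif_pos he, Pi.zero_apply] at this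
    simpa using this
  have := LinearMap.finrank_le_finrank_of_injective hLinj
  simpa using this

lemma card_le_tight (H : E → Finset V) (S : Finset E) (x : E → ℝ)
    (hinj : ∀ d : E → ℝ, (∀ e, e ∉ S → d e = 0) → (∀ v, X H x v = 1 → X H d v = 0) → d = 0) :
    S.card ≤ (Finset.univ.filter (fun v => X H x v = 1)).card := by
  refine le_trans (hall_tight H S x hinj S (Finset.Subset.refl S)) (Finset.card_le_card ?_)
  intro v hv
  rw [Finset.mem_filter] at hv ⊢
  exact ⟨hv.1, hv.2.1⟩

end Pool.Agent.W842.FKS
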