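import Pool.Agent.W842.FKS.Scalar

/-!
Scalar and vertex inequalities for the bound `|e| - 1/5`.
-/

set_option autoImplicit false

namespace Pool.Agent.W842.FKS

open Finset Classical

/-- `1` for `K = 1` and `K - 1/5` for `K ≥ 2`. -/
noncomputable def bb (K : ℕ) : ℝ := if K = 1 then 1 else (K : ℝ) - 1 / 5

lemma bb_ge {K : ℕ} (hK : 1 ≤ K) : 1 ≤ bb K := by
  unfold bb
  split_ifs with h
  · exact le_refl _
  · have h2 : 2 ≤ K := by omega
    have : (2:ℝ) ≤ (K:ℝ) := by exact_mod_cast h2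
    linarith

lemma bb_lt {K L : ℕ} (hK : 1 ≤ K) (h : K < L) : bb K < bb L := by
  have hL : L ≠ 1 := by omega
  unfold bb
  rw [if_neg hL]
  have h3 : ((K + 1 : ℕ) : ℝ) ≤ (L : ℝ) := by exact_mod_cast h
  push_cast at h3
  have h4 : (1:ℝ) ≤ (K:ℝ) := by exact_mod_cast hK
  split_ifs with h1 <;> linarith

/-- the vertex share of `θ (1 + (K-1) x r) + μ`. -/
noncomputable def mu (K : ℕ) (x : ℝ) : ℝ := 1 / 20 * (1 / bb K) ^ 3 * min 1 (8 * (x * bb K))

noncomputable def TT (K : ℕ) (x : ℝ) : ℝ :=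
  (x * (1 / bb K) ^ 2 * (bb K + ((K:ℝ) - 1) * x) + mu K x) / K - x * (1 / bb K) ^ 2

lemma mu_nonneg {K : ℕ} (hK : 1 ≤ K) {x : ℝ} (hx : 0 ≤ x) : 0 ≤ mu K x := by
  have := bb_ge hK
  unfold mu
  have : 0 ≤ min 1 (8 * (x * bb K)) := le_min zero_le_one (by positivity)
  positivity

lemma mu_le {K : ℕ} (hK : 1 ≤ K) (x : ℝ) : mu K x ≤ 1 / 20 * (1 / bb K) ^ 3 := by
  have := bb_ge hK
  unfold mu
  have h1 : min 1 (8 * (x * bb K)) ≤ 1 := min_le_left _ _
  have h2 : 0 ≤ 1 / 20 * (1 / bb K) ^ 3 := by positivity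
  nlinarith

/-- quadratic inequality behind the lower bounds for `TT`. -/
lemma TT_core {K : ℕ} (hK : 2 ≤ K) {w β : ℝ} (hw : 0 ≤ w) (hβ : β ≤ 4 / 25)
    (hd : (bb K / 5 + β * K) ^ 2 ≤ 4 * ((K:ℝ) - 1) * (bb K / 20)) :
    β * K * w ≤ w * (((K:ℝ) - 1) * w - bb K / 5) + bb K / 20 * min 1 (8 * w) := by
  have hK' : (2:ℝ) ≤ (K:ℝ) := by exact_mod_cast hK
  have hb : bb K = (K:ℝ) - 1 / 5 := by
    unfold bb
    rw [if_neg (by omega)]
  rcases le_total (8 * w) 1 with h | h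
  · rw [min_eq_right h]
    have h1 : β * K ≤ ((K:ℝ) - 1) * w - bb K / 5 + bb K / 20 * 8 := by
      rw [hb]
      nlinarith [mul_nonneg (show (0:ℝ) ≤ (K:ℝ) - 1 by linarith) hw, mul_nonneg (show (0:ℝ) ≤ 4 / 25 - β by linarith) (show (0:ℝ) ≤ (K:ℝ) by linarith)]
    nlinarith [mul_nonneg hw (sub_nonneg.2 h1)]
  · rw [min_eq_left h]
    have := quad_nonneg (a := (K:ℝ) - 1) (b := bb K / 5 + β * K) (c := bb K / 20) (x := w)
      (by linarith) hd
    nlinarith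

lemma TT_ge {K : ℕ} (hK : 2 ≤ K) {x β : ℝ} (hx : 0 ≤ x) (hβ : β ≤ 4 / 25)
    (hd : (bb K / 5 + β * K) ^ 2 ≤ 4 * ((K:ℝ) - 1) * (bb K / 20)) :
    x * (β * (1 / bb K) ^ 3) ≤ TT K x := by
  have hK' : (2:ℝ) ≤ (K:ℝ) := by exact_mod_cast hK
  have hb : bb K = (K:ℝ) - 1 / 5 := by
    unfold bb
    rw [if_neg (by omega)]
  have hbp : 0 < bb K := by linarith
  have hw : 0 ≤ x * bb K := by positivity
  have h := TT_core hK hw hβ hd
  have hK0 : (K:ℝ) ≠ 0 := by positivity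
  have hb0 : bb K ≠ 0 := hbp.ne'
  have e1 : TT K x - x * (β * (1 / bb K) ^ 3) = (1 / ((K:ℝ) * bb K ^ 4)) *
      ((x * bb K) * (((K:ℝ) - 1) * (x * bb K) - bb K / 5) + bb K / 20 * min 1 (8 * (x * bb K))
        - β * K * (x * bb K)) := by
    unfold TT mu
    obtain ⟨q, hq⟩ : ∃ q, q = min 1 (8 * (x * bb K)) := ⟨_, rfl⟩
    rw [← hq]
    obtain ⟨c, hc⟩ : ∃ c, c = bb K := ⟨_, rfl⟩
    have hcK : (K:ℝ) = c + 1 / 5 := by rw [hc, hb]; ring
    rw [← hc] at hb0 ⊢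
    field_simp
    rw [hcK]
    ring
  have h2 : 0 ≤ (1 / ((K:ℝ) * bb K ^ 4)) *
      ((x * bb K) * (((K:ℝ) - 1) * (x * bb K) - bb K / 5) + bb K / 20 * min 1 (8 * (x * bb K))
        - β * K * (x * bb K)) := mul_nonneg (by positivity) (by linarith)
  linarith

lemma TT_one {x : ℝ} : TT 1 x = mu 1 x := by
  unfold TT bb
  simp

lemma TT_lower {K : ℕ} (hK : 1 ≤ K) {x : ℝ} (hx : 0 ≤ x) (hx1 : x ≤ 1) :
    x * (1 / 20 * (1 / bb K) ^ 3) ≤ TT K x := by
  rcases Nat.lt_or_ge 1 K with h | h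
  · refine TT_ge h hx (by norm_num) ?_
    have hK' : (2:ℝ) ≤ (K:ℝ) := by exact_mod_cast h
    have hb : bb K = (K:ℝ) - 1 / 5 := by
      unfold bb
      rw [if_neg (by omega)]
    rw [hb]
    nlinarith
  · have h1 : K = 1 := by omega
    subst h1
    rw [TT_one]
    unfold mu bb
    simp only [if_true]
    have : x ≤ min 1 (8 * (x * 1)) := le_min hx1 (by linarith)
    linarith

lemma TT_lower3 {K : ℕ} (hK : 3 ≤ K) {x : ℝ} (hx : 0 ≤ x) :
    x * (4 / 25 * (1 / bb K) ^ 3) ≤ TT K x := by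
  refine TT_ge (by omega) hx (le_refl _) ?_
  have hK' : (3:ℝ) ≤ (K:ℝ) := by exact_mod_cast hK
  have hb : bb K = (K:ℝ) - 1 / 5 := by
    unfold bb
    rw [if_neg (by omega)]
  rw [hb]
  nlinarith [mul_nonneg (show (0:ℝ) ≤ (K:ℝ) by linarith) (show (0:ℝ) ≤ (K:ℝ) - 3 by linarith)]

lemma TT_nonneg {K : ℕ} (hK : 1 ≤ K) {x : ℝ} (hx : 0 ≤ x) (hx1 : x ≤ 1) : 0 ≤ TT K x := by
  have := bb_ge hK
  refine le_trans ?_ (TT_lower hK hx hx1)
  positivity

lemma cubic {y : ℝ} (hy : 0 ≤ y) : 1 / 20 ≤ 1 / 8 * (1 - y) ^ 2 + 4 / 25 * y ^ 3 := by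
  have h1 : 0 ≤ (y - 1 / 2) ^ 2 * (y + 1) := by positivity
  nlinarith [sq_nonneg (y - 13 / 25)]

/-- mixed pairs -/
lemma mixed {k K : ℕ} (hk : 2 ≤ k) (hK : 1 ≤ K) {x y : ℝ} (hx : 0 ≤ x) (hy : 0 ≤ y) (hy1 : y ≤ 1) :
    y * mu k x ≤ y * (x * (1 / bb k - 1 / bb K) ^ 2) + TT K y := by
  have hbk := bb_ge (show 1 ≤ k by omega)
  have hbK := bb_ge hK
  have hrk : 0 < 1 / bb k := by positivity
  have hrK : 0 < 1 / bb K := by positivity
  rcases Nat.lt_or_ge k K with h | h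
  · -- K larger, so K ≥ 3
    have hT := TT_lower3 (show 3 ≤ K by omega) hy
    have key : mu k x ≤ x * (1 / bb k - 1 / bb K) ^ 2 + 4 / 25 * (1 / bb K) ^ 3 := by
      set q := 1 / bb k with hq
      set s := 1 / bb K with hs
      have hc := cubic (y := s / q) (by positivity)
      have hqb : q * bb k = 1 := by rw [hq]; field_simp
      have hc3 : 1 / 20 * q ^ 3 ≤ 1 / 8 * (q - s) ^ 2 * q + 4 / 25 * s ^ 3 := by
        have h3 := mul_le_mul_of_nonneg_left hc (show 0 ≤ q ^ 3 by positivity)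
        have e1 : q ^ 3 * (1 / 8 * (1 - s / q) ^ 2 + 4 / 25 * (s / q) ^ 3) =
            1 / 8 * (q - s) ^ 2 * q + 4 / 25 * s ^ 3 := by
          field_simp
        linarith
      have hmu : mu k x = 1 / 20 * q ^ 3 * min 1 (8 * (x * bb k)) := rfl
      rw [hmu]
      rcases le_total (8 * (x * bb k)) 1 with h4 | h4
      · rw [min_eq_right h4]
        have h5 : 0 ≤ 8 * (x * bb k) := by positivity
        have h6 := mul_le_mul_of_nonneg_left hc3 h5
        have e2 : 8 * (x * bb k) * (1 / 8 * (q - s) ^ 2 * q + 4 / 25 * s ^ 3) =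
            x * (q - s) ^ 2 * (q * bb k) + 8 * (x * bb k) * (4 / 25 * s ^ 3) := by ring
        rw [e2, hqb] at h6
        have h7 : 8 * (x * bb k) * (4 / 25 * s ^ 3) ≤ 1 * (4 / 25 * s ^ 3) :=
          mul_le_mul_of_nonneg_right h4 (by positivity)
        linarith
      · rw [min_eq_left h4]
        have h8 : 1 / 8 * q ≤ x := by
          have h9 : q * 1 ≤ q * (8 * (x * bb k)) := mul_le_mul_of_nonneg_left h4 hrk.le
          have e3 : q * (8 * (x * bb k)) = 8 * x * (q * bb k) := by ring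
          rw [e3, hqb] at h9
          linarith
        have h10 := mul_le_mul_of_nonneg_right h8 (sq_nonneg (q - s))
        linarith
    have := mul_le_mul_of_nonneg_left key hy
    linarith
  · -- K at most k: larger r
    have hT := TT_lower hK hy hy1
    have h1 : 1 / bb k ≤ 1 / bb K := by
      refine one_div_le_one_div_of_le (by linarith) ?_
      rcases Nat.eq_or_lt_of_le h with h2 | h2
      · rw [h2]
      · exact (bb_lt hK h2).le
    have h2 : (1 / bb k) ^ 3 ≤ (1 / bb K) ^ 3 := pow_le_pow_left₀ hrk.le h1 3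
    have h3 := mu_le (show 1 ≤ k by omega) x
    have h4 : y * mu k x ≤ y * (1 / 20 * (1 / bb K) ^ 3) :=
      mul_le_mul_of_nonneg_left (by linarith) hy
    have h5 : 0 ≤ y * (x * (1 / bb k - 1 / bb K) ^ 2) := by positivity
    linarith

/-- Vertex inequality without the tightness. -/
lemma vert_nonneg {E : Type*} (N : Finset E) (K : E → ℕ) (x : E → ℝ) (hK : ∀ e ∈ N, 1 ≤ K e)
    (hx : ∀ e ∈ N, 0 ≤ x e) (hx1 : ∀ e ∈ N, x e ≤ 1) (hsum : ∑ e ∈ N, x e ≤ 1) :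
    (∑ e ∈ N, x e * (1 / bb (K e))) ^ 2 ≤
      ∑ e ∈ N, (x e * (1 / bb (K e)) ^ 2 + TT (K e) (x e)) := by
  have h1 : (∑ e ∈ N, x e * (1 / bb (K e))) ^ 2 ≤ (∑ e ∈ N, x e) *
      ∑ e ∈ N, x e * (1 / bb (K e)) ^ 2 :=
    Finset.sum_sq_le_sum_mul_sum_of_sq_eq_mul N (fun e he => hx e he)
      (fun e he => mul_nonneg (hx e he) (sq_nonneg _)) (fun e _ => by ring)
  have h2 : 0 ≤ ∑ e ∈ N, x e * (1 / bb (K e)) ^ 2 :=
    Finset.sum_nonneg fun e he => mul_nonneg (hx e he) (sq_nonneg _)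
  have h3 : 0 ≤ ∑ e ∈ N, TT (K e) (x e) :=
    Finset.sum_nonneg fun e he => TT_nonneg (hK e he) (hx e he) (hx1 e he)
  rw [Finset.sum_add_distrib]
  nlinarith

/-- Vertex inequality at a tight vertex. -/
lemma vert_tight {E : Type*} (N : Finset E) (K : E → ℕ) (x : E → ℝ) (hK : ∀ e ∈ N, 1 ≤ K e)
    (hx : ∀ e ∈ N, 0 ≤ x e) (hx1 : ∀ e ∈ N, x e ≤ 1) (hsum : ∑ e ∈ N, x e = 1)
    (a : E) (ha : a ∈ N) :
    (∑ e ∈ N, x e * (1 / bb (K e))) ^ 2 + mu (K a) (x a) ≤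
      ∑ e ∈ N, (x e * (1 / bb (K e)) ^ 2 + TT (K e) (x e)) := by
  rcases Nat.lt_or_ge 1 (K a) with hKa | hKa
  · set q := 1 / bb (K a) with hq
    set r : E → ℝ := fun e => 1 / bb (K e) with hr
    -- variance
    have hv : (∑ e ∈ N.erase a, x e * (r e - q)) ^ 2 ≤ (∑ e ∈ N.erase a, x e) *
        ∑ e ∈ N.erase a, x e * (r e - q) ^ 2 :=
      Finset.sum_sq_le_sum_mul_sum_of_sq_eq_mul (N.erase a)
        (fun e he => hx e (Finset.mem_of_mem_erase he))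
        (fun e he => mul_nonneg (hx e (Finset.mem_of_mem_erase he)) (sq_nonneg _))
        (fun e _ => by ring)
    have e0 : ∀ g : E → ℝ, ∑ e ∈ N, g e = g a + ∑ e ∈ N.erase a, g e := fun g =>
      (Finset.add_sum_erase N g ha).symm
    have e1 : ∑ e ∈ N.erase a, x e = 1 - x a := by
      have := e0 x
      linarith
    have e2 : ∑ e ∈ N, x e * (r e - q) = ∑ e ∈ N.erase a, x e * (r e - q) := by
      rw [e0]
      simp [hr, hq]
    have e3 : ∑ e ∈ N, x e * (r e - q) ^ 2 = ∑ e ∈ N.erase a, x e * (r e - q) ^ 2 := by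
      rw [e0]
      simp [hr, hq]
    have e4 : ∑ e ∈ N, x e * (r e - q) = ∑ e ∈ N, x e * r e - q := by
      simp only [mul_sub, Finset.sum_sub_distrib, ← Finset.sum_mul, hsum, one_mul]
    have e5 : ∑ e ∈ N, x e * (r e - q) ^ 2 =
        ∑ e ∈ N, x e * r e ^ 2 - 2 * q * ∑ e ∈ N, x e * r e + q ^ 2 := by
      have : ∀ e, x e * (r e - q) ^ 2 = x e * r e ^ 2 - 2 * q * (x e * r e) + x e * q ^ 2 := by
        intro e
        ring
      rw [Finset.sum_congr rfl fun e _ => this e, Finset.sum_add_distrib, Finset.sum_sub_distrib,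
        ← Finset.mul_sum, ← Finset.sum_mul, hsum, one_mul]
    rw [e1, ← e2, ← e3, e4] at hv
    set Y := ∑ e ∈ N, x e * r e with hY
    set W := ∑ e ∈ N, x e * (r e - q) ^ 2 with hW
    have hm : ∑ e ∈ N, x e * mu (K a) (x a) ≤ ∑ e ∈ N, (x e * (x a * (q - r e) ^ 2) +
        TT (K e) (x e)) :=
      Finset.sum_le_sum fun e he => mixed hKa (hK e he) (hx a ha) (hx e he) (hx1 e he)
    rw [← Finset.sum_mul, hsum, one_mul, Finset.sum_add_distrib] at hm
    have e6 : ∑ e ∈ N, x e * (x a * (q - r e) ^ 2) = x a * W := by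
      rw [hW, Finset.mul_sum]
      refine Finset.sum_congr rfl fun e _ => ?_
      ring
    rw [e6] at hm
    rw [Finset.sum_add_distrib]
    have e7 : Y ^ 2 + x a * W ≤ ∑ e ∈ N, x e * r e ^ 2 := by
      nlinarith
    linarith
  · have h1 : K a = 1 := le_antisymm hKa (hK a ha)
    have hv : (∑ e ∈ N, x e * (1 / bb (K e))) ^ 2 ≤ (∑ e ∈ N, x e) *
        ∑ e ∈ N, x e * (1 / bb (K e)) ^ 2 :=
      Finset.sum_sq_le_sum_mul_sum_of_sq_eq_mul N (fun e he => hx e he)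
        (fun e he => mul_nonneg (hx e he) (sq_nonneg _)) (fun e _ => by ring)
    rw [hsum, one_mul] at hv
    have h2 := Finset.single_le_sum (f := fun e => TT (K e) (x e))
      (fun e he => TT_nonneg (hK e he) (hx e he) (hx1 e he)) ha
    simp only [h1, TT_one] at h2
    rw [Finset.sum_add_distrib, h1]
    linarith

end Pool.Agent.W842.FKS
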