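import Mathlib

/-!
Core of the rounding argument for fractional edge colourings of multi-hypergraphs: if every
extreme point of the fractional matching polytope (with full support) has an edge whose closed
neighbourhood has scaled weight at most one, then the scaled fractional matching polytope is
contained in the matching polytope.
-/

set_option autoImplicit false

namespace Pool.Agent.W842.FKS

open Finset Classical

set_option linter.unusedSectionVars false

variable {V E : Type*} [Fintype V] [Fintype E]

/-- A set of edge occurrences that are pairwise disjoint. -/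
def IsMatching (H : E → Finset V) (M : Finset E) : Prop :=
  ∀ e ∈ M, ∀ f ∈ M, e ≠ f → Disjoint (H e) (H f)

/-- The matching polytope. -/
def MP (H : E → Finset V) : Set (E → ℝ) :=
  {z | ∃ w : Finset E → ℝ, (∀ M, 0 ≤ w M) ∧ (∀ M, ¬ IsMatching H M → w M = 0) ∧
    ∑ M, w M = 1 ∧ ∀ e, z e = ∑ M, if e ∈ M then w M else 0}

lemma convex_MP (H : E → Finset V) : Convex ℝ (MP H) := by
  intro z1 h1 z2 h2 a b ha hb hab
  obtain ⟨w1, p1, q1, r1, s1⟩ := h1
  obtain ⟨w2, p2, q2, r2, s2⟩ := h2
  refine ⟨fun M => a * w1 M + b * w2 M, fun M => ?_, fun M hM => by simp [q1 M hM, q2 M hM],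
    ?_, ?_⟩
  · have := p1 M
    have := p2 M
    positivity
  · rw [Finset.sum_add_distrib, ← Finset.mul_sum, ← Finset.mul_sum, r1, r2]
    linarith
  · intro e
    simp only [Pi.add_apply, Pi.smul_apply, smul_eq_mul, s1 e, s2 e, Finset.mul_sum,
      ← Finset.sum_add_distrib]
    refine Finset.sum_congr rfl fun M _ => ?_
    split_ifs <;> ring

lemma isCompact_MP (H : E → Finset V) : IsCompact (MP H) := by
  have hK : IsCompact (stdSimplex ℝ (Finset E) ∩ {w | ∀ M, ¬ IsMatching H M → w M = 0}) := by
    apply (isCompact_stdSimplex ℝ (Finset E)).inter_right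
    simp only [Set.setOf_forall]
    exact isClosed_iInter fun M => isClosed_iInter fun _ =>
      isClosed_eq (continuous_apply M) continuous_const
  have hΦ : Continuous (fun w : Finset E → ℝ => fun e : E => ∑ M, if e ∈ M then w M else 0) := by
    refine continuous_pi fun e => continuous_finset_sum _ fun M _ => ?_
    split_ifs
    · exact continuous_apply M
    · exact continuous_const
  have := hK.image hΦ
  convert this using 1
  ext z
  constructor
  · rintro ⟨w, p, q, r, s⟩
    exact ⟨w, ⟨⟨p, r⟩, q⟩, by funext e; exact (s e).symm⟩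
  · rintro ⟨w, ⟨⟨p, r⟩, q⟩, rfl⟩
    exact ⟨w, p, q, r, fun e => rfl⟩

lemma ind_mem (H : E → Finset V) {M : Finset E} (hM : IsMatching H M) :
    (fun e => if e ∈ M then (1:ℝ) else 0) ∈ MP H := by
  refine ⟨fun N => if N = M then 1 else 0, fun N => ?_, fun N hN => ?_, by simp,
    fun e => ?_⟩
  · dsimp only
    split_ifs <;> norm_num
  · dsimp only
    rw [if_neg]
    rintro rfl
    exact hN hM
  · rw [Finset.sum_eq_single M]
    · simp
    · intro N _ hN
      simp [hN]
    · intro h
      exact absurd (Finset.mem_univ M) h

lemma empty_matching (H : E → Finset V) : IsMatching H ∅ := by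
  intro e he
  simp at he

lemma zero_mem (H : E → Finset V) : (fun _ => (0:ℝ)) ∈ MP H := by
  have := ind_mem H (empty_matching H)
  simpa using this

/-- Adding one edge on the event that it is free. -/
lemma add_edge (H : E → Finset V) (hne : ∀ e, (H e).Nonempty) (z : E → ℝ) (hz : z ∈ MP H)
    (e : E) (hze : z e = 0) (t : ℝ) (ht : 0 ≤ t)
    (hsum : t + ∑ f, (if Disjoint (H e) (H f) then 0 else z f) ≤ 1) :
    (fun f => z f + if f = e then t else 0) ∈ MP H := by
  have hz' := hz
  obtain ⟨w, p, q, r, s⟩ := hz
  set free : Finset E → Prop := fun M => ∀ f ∈ M, Disjoint (H e) (H f) with hfree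
  set Q : ℝ := ∑ M, (if free M then w M else 0) with hQ
  have hself : ¬ Disjoint (H e) (H e) := by
    rw [disjoint_self]
    exact (hne e).ne_empty
  have hefree : ∀ M, free M → e ∉ M := fun M hM he => hself (hM e he)
  have hQt : t ≤ Q := by
    have h1 : ∑ M, w M ≤ Q + ∑ f, (if Disjoint (H e) (H f) then 0 else z f) := by
      have h2 : ∑ f, (if Disjoint (H e) (H f) then 0 else z f) =
          ∑ M, ∑ f, (if Disjoint (H e) (H f) then 0 else (if f ∈ M then w M else 0)) := by
        rw [Finset.sum_comm]
        refine Finset.sum_congr rfl fun f _ => ?_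
        split_ifs
        · simp
        · exact s f
      rw [h2, hQ, ← Finset.sum_add_distrib]
      refine Finset.sum_le_sum fun M _ => ?_
      by_cases hM : free M
      · rw [if_pos hM]
        have : 0 ≤ ∑ f, (if Disjoint (H e) (H f) then 0 else (if f ∈ M then w M else 0)) := by
          refine Finset.sum_nonneg fun f _ => ?_
          have := p M
          split_ifs <;> linarith
        linarith
      · rw [if_neg hM, zero_add]
        simp only [hfree, not_forall] at hM
        obtain ⟨f, hfM, hf⟩ := hM
        have h3 : (if Disjoint (H e) (H f) then (0:ℝ) else (if f ∈ M then w M else 0)) ≤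
            ∑ f, (if Disjoint (H e) (H f) then 0 else (if f ∈ M then w M else 0)) := by
          refine Finset.single_le_sum (f := fun f => (if Disjoint (H e) (H f) then (0:ℝ) else (if f ∈ M then w M else 0))) (fun g _ => ?_) (Finset.mem_univ f)
          have := p M
          split_ifs <;> linarith
        rw [if_neg hf, if_pos hfM] at h3
        exact h3
    rw [r] at h1
    linarith
  rcases eq_or_lt_of_le (le_trans ht hQt) with hQ0 | hQ0
  · have ht0 : t = 0 := le_antisymm (hQ0 ▸ hQt) ht
    simpa [ht0] using hz'
  · set τ := t / Q with hτ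
    have hτ0 : 0 ≤ τ := div_nonneg ht hQ0.le
    have hτ1 : τ ≤ 1 := by
      rw [hτ, div_le_one hQ0]
      exact hQt
    set ξ : Finset E → (E → ℝ) := fun M => if IsMatching H M then
      (fun f => (if f ∈ M then (1:ℝ) else 0) + if free M then (if f = e then τ else 0) else 0)
      else fun _ => 0 with hξ
    have hξm : ∀ M, ξ M ∈ MP H := by
      intro M
      rw [hξ]
      dsimp only
      split_ifs with hM hF
      · -- convex combination
        have hM' : IsMatching H (insert e M) := by
          intro a ha b hb hab
          rw [Finset.mem_insert] at ha hb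
          rcases ha with rfl | ha <;> rcases hb with rfl | hb
          · exact absurd rfl hab
          · exact hF b hb
          · exact (hF a ha).symm
          · exact hM a ha b hb hab
        have hc := convex_MP H (ind_mem H hM) (ind_mem H hM') (sub_nonneg.2 hτ1) hτ0
          (by ring)
        convert hc using 1
        funext f
        simp only [Pi.add_apply, Pi.smul_apply, smul_eq_mul, Finset.mem_insert]
        by_cases hfe : f = e
        · subst hfe
          simp [hefree M hF]
        · by_cases hfM : f ∈ M <;> simp [hfe, hfM]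
      · simpa using ind_mem H hM
      · exact zero_mem H
    have hmem := (convex_MP H).sum_mem (t := Finset.univ) (w := w) (z := ξ)
      (fun M _ => p M) r (fun M _ => hξm M)
    convert hmem using 1
    funext f
    rw [Finset.sum_apply]
    have h4 : ∀ M, (w M • ξ M) f = (if f ∈ M then w M else 0) +
        (if free M then w M else 0) * (if f = e then τ else 0) := by
      intro M
      rw [Pi.smul_apply, smul_eq_mul, hξ]
      dsimp only
      by_cases hM : IsMatching H M
      · rw [if_pos hM]
        split_ifs <;> ring
      · rw [if_neg hM, q M hM]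
        simp
    rw [Finset.sum_congr rfl fun M _ => h4 M, Finset.sum_add_distrib, ← Finset.sum_mul, ← s f,
      ← hQ]
    split_ifs
    · rw [hτ]
      field_simp
    · simp

/-- The load of a vertex. -/
noncomputable def X (H : E → Finset V) (x : E → ℝ) (v : V) : ℝ := ∑ e, if v ∈ H e then x e else 0

/-- The fractional matching polytope on a set of edges. -/
def FM (H : E → Finset V) (S : Finset E) : Set (E → ℝ) :=
  {x | (∀ e, 0 ≤ x e) ∧ (∀ e, e ∉ S → x e = 0) ∧ ∀ v, X H x v ≤ 1}

lemma X_continuous (H : E → Finset V) (v : V) : Continuous fun x => X H x v := by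
  unfold X
  refine continuous_finset_sum _ fun e _ => ?_
  split_ifs
  · exact continuous_apply e
  · exact continuous_const

lemma X_add_smul (H : E → Finset V) (x d : E → ℝ) (c : ℝ) (v : V) :
    X H (fun e => x e + c * d e) v = X H x v + c * X H d v := by
  unfold X
  rw [Finset.mul_sum, ← Finset.sum_add_distrib]
  refine Finset.sum_congr rfl fun e _ => ?_
  split_ifs <;> ring

lemma FM_le_one (H : E → Finset V) (hne : ∀ e, (H e).Nonempty) (S : Finset E) {x : E → ℝ}
    (hx : x ∈ FM H S) (e : E) : x e ≤ 1 := by
  obtain ⟨v, hv⟩ := hne e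
  refine le_trans ?_ (hx.2.2 v)
  have := Finset.single_le_sum (f := fun e => if v ∈ H e then x e else 0)
    (fun g _ => by have := hx.1 g; split_ifs <;> linarith) (Finset.mem_univ e)
  unfold X
  simpa [hv] using this

lemma convex_FM (H : E → Finset V) (S : Finset E) : Convex ℝ (FM H S) := by
  intro x hx y hy a b ha hb hab
  refine ⟨fun e => ?_, fun e he => ?_, fun v => ?_⟩
  · have := hx.1 e
    have := hy.1 e
    simp only [Pi.add_apply, Pi.smul_apply, smul_eq_mul]
    positivity
  · simp [hx.2.1 e he, hy.2.1 e he]
  · have h : X H (a • x + b • y) v = a * X H x v + b * X H y v := by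
      unfold X
      rw [Finset.mul_sum, Finset.mul_sum, ← Finset.sum_add_distrib]
      refine Finset.sum_congr rfl fun e _ => ?_
      simp only [Pi.add_apply, Pi.smul_apply, smul_eq_mul]
      split_ifs <;> ring
    rw [h]
    have := hx.2.2 v
    have := hy.2.2 v
    nlinarith

lemma isCompact_FM (H : E → Finset V) (hne : ∀ e, (H e).Nonempty) (S : Finset E) :
    IsCompact (FM H S) := by
  refine IsCompact.of_isClosed_subset (isCompact_Icc (a := (fun _ => (0:ℝ))) (b := fun _ => 1))
    ?_ ?_
  · have : FM H S = (⋂ e, {x : E → ℝ | 0 ≤ x e}) ∩ ((⋂ e, ⋂ (_ : e ∉ S), {x : E → ℝ | x e = 0}) ∩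
        ⋂ v, {x : E → ℝ | X H x v ≤ 1}) := by
      ext x
      simp [FM]
    rw [this]
    refine IsClosed.inter (isClosed_iInter fun e => isClosed_le continuous_const
      (continuous_apply e)) (IsClosed.inter (isClosed_iInter fun e => isClosed_iInter fun _ =>
      isClosed_eq (continuous_apply e) continuous_const) (isClosed_iInter fun v =>
      isClosed_le (X_continuous H v) continuous_const))
  · intro x hx
    exact ⟨fun e => hx.1 e, fun e => FM_le_one H hne S hx e⟩

/-- At an extreme point with full support no direction keeps all tight vertices tight. -/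
lemma extreme_inj (H : E → Finset V) (S : Finset E) {x : E → ℝ}
    (hx : x ∈ (FM H S).extremePoints ℝ) (hpos : ∀ e ∈ S, 0 < x e) (d : E → ℝ)
    (hd : ∀ e, e ∉ S → d e = 0) (ht : ∀ v, X H x v = 1 → X H d v = 0) : d = 0 := by
  obtain ⟨hxF, hext⟩ := mem_extremePoints.1 hx
  have h1 : ∀ᶠ c in nhdsWithin (0:ℝ) (Set.Ioi 0), ∀ e, e ∈ S → c * |d e| < x e := by
    rw [Filter.eventually_all]
    intro e
    by_cases he : e ∈ S
    · have : Filter.Tendsto (fun c : ℝ => c * |d e|) (nhdsWithin 0 (Set.Ioi 0)) (nhds (0 * |d e|)) :=
        (Filter.Tendsto.mul_const _ (Filter.tendsto_id.mono_left nhdsWithin_le_nhds))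
      rw [zero_mul] at this
      filter_upwards [this.eventually_lt_const (hpos e he)] with c hc _
      exact hc
    · exact Filter.Eventually.of_forall fun c h => absurd h he
  have h2 : ∀ᶠ c in nhdsWithin (0:ℝ) (Set.Ioi 0), ∀ v, X H x v < 1 →
      c * |X H d v| < 1 - X H x v := by
    rw [Filter.eventually_all]
    intro v
    by_cases hv : X H x v < 1
    · have : Filter.Tendsto (fun c : ℝ => c * |X H d v|) (nhdsWithin 0 (Set.Ioi 0))
          (nhds (0 * |X H d v|)) :=
        (Filter.Tendsto.mul_const _ (Filter.tendsto_id.mono_left nhdsWithin_le_nhds))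
      rw [zero_mul] at this
      filter_upwards [this.eventually_lt_const (sub_pos.2 hv)] with c hc _
      exact hc
    · exact Filter.Eventually.of_forall fun c h => absurd h hv
  obtain ⟨c, hc1, hc2, hc0⟩ := (h1.and (h2.and self_mem_nhdsWithin)).exists
  have hc0 : 0 < c := hc0
  have key : ∀ s : ℝ, |s| = c → (fun e => x e + s * d e) ∈ FM H S := by
    intro s hs
    refine ⟨fun e => ?_, fun e he => by simp [hxF.2.1 e he, hd e he], fun v => ?_⟩
    · by_cases he : e ∈ S
      · have h3 := hc1 e he
        have h4 : |s * d e| < x e := by rw [abs_mul, hs]; exact h3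
        have := (abs_lt.1 h4).1
        linarith
      · simp [hxF.2.1 e he, hd e he]
    · rw [X_add_smul]
      rcases (hxF.2.2 v).lt_or_eq with hv | hv
      · have h3 := hc2 v hv
        have h4 : |s * X H d v| < 1 - X H x v := by rw [abs_mul, hs]; exact h3
        have := (abs_lt.1 h4).2
        linarith
      · rw [ht v hv, hv]
        simp
  have hp := key c (abs_of_pos hc0)
  have hm := key (-c) (by rw [abs_neg, abs_of_pos hc0])
  have hseg : x ∈ openSegment ℝ (fun e => x e + c * d e) (fun e => x e + (-c) * d e) := by
    refine ⟨1/2, 1/2, by norm_num, by norm_num, by norm_num, ?_⟩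
    funext e
    simp only [Pi.add_apply, Pi.smul_apply, smul_eq_mul]
    ring
  have := (hext _ hp _ hm hseg).1
  funext e
  have h5 : x e + c * d e = x e := congrFun this e
  have h6 : c * d e = 0 := by linarith
  rcases mul_eq_zero.1 h6 with h | h
  · exact absurd h hc0.ne'
  · exact h

/-- The rounding argument. -/
theorem core (H : E → Finset V) (hne : ∀ e, (H e).Nonempty) (r : E → ℝ) (hr : ∀ e, 0 ≤ r e)
    (hstep : ∀ (S : Finset E) (x : E → ℝ), S.Nonempty → (∀ e ∈ S, 0 < x e) →
      (∀ e, e ∉ S → x e = 0) → (∀ v, X H x v ≤ 1) →
      (∀ d : E → ℝ, (∀ e, e ∉ S → d e = 0) → (∀ v, X H x v = 1 → X H d v = 0) → d = 0) →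
      ∃ e ∈ S, ∑ f, (if Disjoint (H e) (H f) then 0 else x f * r f) ≤ 1) :
    ∀ (S : Finset E), ∀ x ∈ FM H S, (fun e => x e * r e) ∈ MP H := by
  intro S
  induction S using Finset.strongInduction with
  | H S ih =>
  rcases S.eq_empty_or_nonempty with hS | hS
  · intro x hx
    have : (fun e => x e * r e) = fun _ => 0 := by
      funext e
      rw [hx.2.1 e (by simp [hS]), zero_mul]
    rw [this]
    exact zero_mem H
  have hKM := closure_convexHull_extremePoints (isCompact_FM H hne S) (convex_FM H S)
  set C : Set (E → ℝ) := {x | (fun e => x e * r e) ∈ MP H} with hC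
  have hCconv : Convex ℝ C := by
    intro x hx y hy a b ha hb hab
    have := convex_MP H hx hy ha hb hab
    show (fun e => _) ∈ MP H
    convert this using 1
    funext e
    simp only [Pi.add_apply, Pi.smul_apply, smul_eq_mul]
    ring
  have hCclosed : IsClosed C := by
    refine (isCompact_MP H).isClosed.preimage ?_
    exact continuous_pi fun e => (continuous_apply e).mul continuous_const
  have hsub : (FM H S).extremePoints ℝ ⊆ C := by
    intro x hx
    have hxF : x ∈ FM H S := (mem_extremePoints.1 hx).1
    by_cases h0 : ∃ e ∈ S, x e = 0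
    · obtain ⟨e, he, hxe⟩ := h0
      refine ih (S.erase e) (Finset.erase_ssubset he) x ⟨hxF.1, fun f hf => ?_, hxF.2.2⟩
      rcases eq_or_ne f e with rfl | hfe
      · exact hxe
      · exact hxF.2.1 f fun h => hf (Finset.mem_erase.2 ⟨hfe, h⟩)
    · push Not at h0
      have hpos : ∀ e ∈ S, 0 < x e := fun e he => lt_of_le_of_ne (hxF.1 e) (h0 e he).symm
      obtain ⟨e, he, hsum⟩ := hstep S x hS hpos hxF.2.1 hxF.2.2 (extreme_inj H S hx hpos)
      set x' : E → ℝ := fun f => if f = e then 0 else x f with hx'
      have hx'F : x' ∈ FM H (S.erase e) := by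
        refine ⟨fun f => ?_, fun f hf => ?_, fun v => ?_⟩
        · have := hxF.1 f
          simp only [hx']
          split_ifs <;> linarith
        · simp only [hx']
          split_ifs with hfe
          · rfl
          · exact hxF.2.1 f fun h => hf (Finset.mem_erase.2 ⟨hfe, h⟩)
        · refine le_trans (Finset.sum_le_sum fun f _ => ?_) (hxF.2.2 v)
          have := hxF.1 f
          simp only [hx']
          split_ifs <;> linarith
      have hz' := ih (S.erase e) (Finset.erase_ssubset he) x' hx'F
      have hadd := add_edge H hne _ hz' e (by simp [hx']) (x e * r e)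
        (mul_nonneg (hxF.1 e) (hr e)) (by
          refine le_trans (le_of_eq ?_) hsum
          have hself : ¬ Disjoint (H e) (H e) := by
            rw [disjoint_self]
            exact (hne e).ne_empty
          have h7 : ∀ f, (if Disjoint (H e) (H f) then 0 else x f * r f) =
              (if f = e then x e * r e else 0) +
              (if Disjoint (H e) (H f) then 0 else x' f * r f) := by
            intro f
            simp only [hx']
            by_cases hfe : f = e
            · subst hfe
              rw [if_neg hself, if_neg hself, if_pos rfl, if_pos rfl]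
              ring
            · simp [hfe]
          rw [Finset.sum_congr rfl fun f _ => h7 f, Finset.sum_add_distrib]
          simp)
      show (fun e => _) ∈ MP H
      convert hadd using 1
      funext f
      simp only [hx']
      by_cases hfe : f = e
      · subst hfe
        simp
      · simp [hfe]
  intro x hx
  rw [← hKM] at hx
  exact closure_minimal (convexHull_min hsub hCconv) hCclosed hx

end Pool.Agent.W842.FKS
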