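import Pool.Agent.W842.FKS.Avg

/-!
The scalar inequalities at a vertex for edges of sizes `1`, `k`, `k + 1`.
-/

set_option autoImplicit false

namespace Pool.Agent.W842.FKS

open Finset Classical

lemma quad_nonneg {a b c x : ℝ} (ha : 0 < a) (h : b ^ 2 ≤ 4 * a * c) :
    0 ≤ a * x ^ 2 - b * x + c := by
  have h1 := sq_nonneg (2 * a * x - b)
  have h2 : 4 * a * (a * x ^ 2 - b * x + c) = (2 * a * x - b) ^ 2 + (4 * a * c - b ^ 2) := by ring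
  have h3 : 0 ≤ 4 * a * (a * x ^ 2 - b * x + c) := by rw [h2]; linarith
  exact nonneg_of_mul_nonneg_right h3 (by linarith)

noncomputable def gA (κ : ℝ) : ℝ := κ ^ 2 / (κ ^ 2 - κ + 1)
noncomputable def gB (κ : ℝ) : ℝ := κ ^ 4 / ((κ ^ 3 - 1) * (κ + 1))

section
variable {κ : ℝ} (hκ : 2 ≤ κ)
include hκ

lemma q_pos : 0 < κ ^ 2 - κ + 1 := by nlinarith
lemma c_pos : 0 < κ ^ 3 - 1 := by nlinarith [sq_nonneg κ, mul_pos (show (0:ℝ) < κ by linarith) (show (0:ℝ) < κ by linarith)]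

lemma gA_pos : 0 < gA κ := by
  have := q_pos hκ
  unfold gA
  positivity

lemma gB_pos : 0 < gB κ := by
  have := c_pos hκ
  unfold gB
  positivity

lemma gA_sub : gA κ - 1 = (κ - 1) / (κ ^ 2 - κ + 1) := by
  have h1 := (q_pos hκ).ne'
  unfold gA
  obtain ⟨q, hq⟩ : ∃ q, q = κ ^ 2 - κ + 1 := ⟨_, rfl⟩
  rw [← hq] at h1 ⊢
  rw [div_sub_one h1]
  congr 1
  rw [hq]
  ring

lemma gB_sub : 1 - gB κ = (κ ^ 3 - κ - 1) / ((κ ^ 3 - 1) * (κ + 1)) := by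
  have h1 := (c_pos hκ).ne'
  have h2 : κ + 1 ≠ 0 := by positivity
  unfold gB
  rw [one_sub_div (mul_ne_zero h1 h2)]
  congr 1
  ring

lemma gA_sub_nonneg : 0 ≤ gA κ - 1 := by
  rw [gA_sub hκ]
  exact div_nonneg (by linarith) (q_pos hκ).le

lemma gB_sub_nonneg : 0 ≤ 1 - gB κ := by
  rw [gB_sub hκ]
  have := c_pos hκ
  refine div_nonneg ?_ (by positivity)
  nlinarith [mul_nonneg (show (0:ℝ) ≤ κ - 2 by linarith) (show (0:ℝ) ≤ κ by linarith), mul_nonneg (mul_nonneg (show (0:ℝ) ≤ κ - 2 by linarith) (show (0:ℝ) ≤ κ by linarith)) (show (0:ℝ) ≤ κ by linarith)]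

lemma disc_B1 : (gA κ + gB κ) ^ 2 ≤ 4 * (gB κ * (κ + 1)) * (1 / (κ + 1) + (gA κ - 1) / κ) := by
  have h1 := (q_pos hκ).ne'
  have h2 := (c_pos hκ).ne'
  have h3 : κ + 1 ≠ 0 := by positivity
  have h4 : κ ≠ 0 := by positivity
  have h5 := q_pos hκ
  have h6 := c_pos hκ
  have key : 4 * (gB κ * (κ + 1)) * (1 / (κ + 1) + (gA κ - 1) / κ) - (gA κ + gB κ) ^ 2 =
      κ ^ 3 * (3 * κ ^ 5 + 2 * κ ^ 4 - 3 * κ ^ 3 - 2 * κ ^ 2 - 5 * κ + 4) * 1 /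
      (((κ ^ 2 - κ + 1) * ((κ ^ 3 - 1) * (κ + 1))) ^ 2) := by
    rw [gA_sub hκ]
    unfold gA gB
    obtain ⟨q, hq⟩ : ∃ q, q = κ ^ 2 - κ + 1 := ⟨_, rfl⟩
    obtain ⟨c, hc⟩ : ∃ c, c = κ ^ 3 - 1 := ⟨_, rfl⟩
    rw [← hq] at h1 ⊢
    rw [← hc] at h2 ⊢
    field_simp
    rw [hq, hc]
    ring
  have h7 : 0 ≤ 3 * κ ^ 5 + 2 * κ ^ 4 - 3 * κ ^ 3 - 2 * κ ^ 2 - 5 * κ + 4 := by
    obtain ⟨t, ht⟩ : ∃ t, κ = 2 + t := ⟨κ - 2, by ring⟩
    have ht0 : 0 ≤ t := by linarith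
    subst ht
    ring_nf
    positivity
  have h8 : 0 ≤ κ ^ 3 * (3 * κ ^ 5 + 2 * κ ^ 4 - 3 * κ ^ 3 - 2 * κ ^ 2 - 5 * κ + 4) * 1 /
      (((κ ^ 2 - κ + 1) * ((κ ^ 3 - 1) * (κ + 1))) ^ 2) := by positivity
  linarith

lemma disc_A2 : (gA κ + gB κ) ^ 2 ≤ 4 * (gA κ * κ) * (1 / κ - (1 - gB κ) / (κ + 1)) := by
  have h1 := (q_pos hκ).ne'
  have h2 := (c_pos hκ).ne'
  have h3 : κ + 1 ≠ 0 := by positivity
  have h4 : κ ≠ 0 := by positivity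
  have h5 := q_pos hκ
  have h6 := c_pos hκ
  have key : 4 * (gA κ * κ) * (1 / κ - (1 - gB κ) / (κ + 1)) - (gA κ + gB κ) ^ 2 =
      κ ^ 2 * (3 * κ ^ 7 + κ ^ 6 - κ ^ 5 - 5 * κ ^ 4 - 7 * κ ^ 3 - κ ^ 2 + 4 * κ + 4) /
      ((κ + 1) * ((κ ^ 2 - κ + 1) * ((κ ^ 3 - 1) * (κ + 1))) ^ 2) := by
    rw [gB_sub hκ]
    unfold gA gB
    obtain ⟨q, hq⟩ : ∃ q, q = κ ^ 2 - κ + 1 := ⟨_, rfl⟩
    obtain ⟨c, hc⟩ : ∃ c, c = κ ^ 3 - 1 := ⟨_, rfl⟩
    rw [← hq] at h1 ⊢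
    rw [← hc] at h2 ⊢
    field_simp
    rw [hq, hc]
    ring
  have h7 : 0 ≤ 3 * κ ^ 7 + κ ^ 6 - κ ^ 5 - 5 * κ ^ 4 - 7 * κ ^ 3 - κ ^ 2 + 4 * κ + 4 := by
    obtain ⟨t, ht⟩ : ∃ t, κ = 2 + t := ⟨κ - 2, by ring⟩
    have ht0 : 0 ≤ t := by linarith
    subst ht
    ring_nf
    positivity
  have h8 : 0 ≤ κ ^ 2 * (3 * κ ^ 7 + κ ^ 6 - κ ^ 5 - 5 * κ ^ 4 - 7 * κ ^ 3 - κ ^ 2 + 4 * κ + 4) /
      ((κ + 1) * ((κ ^ 2 - κ + 1) * ((κ ^ 3 - 1) * (κ + 1))) ^ 2) := by positivity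
  linarith

lemma A1 (x : ℝ) : (gA κ - 1) * (x - 1 / κ) ≤ gA κ * (κ * x ^ 2 - x) + 1 / κ - x := by
  have h4 : κ ≠ 0 := by positivity
  have h : gA κ * (κ * x ^ 2 - x) + 1 / κ - x - (gA κ - 1) * (x - 1 / κ) =
      gA κ / κ * (κ * x - 1) ^ 2 := by
    field_simp
    ring
  have := gA_pos hκ
  have : 0 ≤ gA κ / κ * (κ * x - 1) ^ 2 := by positivity
  linarith

lemma B2 (x : ℝ) : (1 - gB κ) * (1 / (κ + 1) - x) ≤
    gB κ * ((κ + 1) * x ^ 2 - x) + 1 / (κ + 1) - x := by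
  have h4 : κ + 1 ≠ 0 := by positivity
  have h : gB κ * ((κ + 1) * x ^ 2 - x) + 1 / (κ + 1) - x - (1 - gB κ) * (1 / (κ + 1) - x) =
      gB κ / (κ + 1) * ((κ + 1) * x - 1) ^ 2 := by
    field_simp
    ring
  have := gB_pos hκ
  have : 0 ≤ gB κ / (κ + 1) * ((κ + 1) * x - 1) ^ 2 := by positivity
  linarith

lemma A2 (x : ℝ) : (1 - gB κ) * (1 / (κ + 1) - x) ≤ gA κ * (κ * x ^ 2 - x) + 1 / κ - x := by
  have h0 := gA_pos hκ
  have h := quad_nonneg (x := x) (show 0 < gA κ * κ by positivity) (disc_A2 hκ)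
  have e : gA κ * (κ * x ^ 2 - x) + 1 / κ - x - (1 - gB κ) * (1 / (κ + 1) - x) =
    gA κ * κ * x ^ 2 - (gA κ + gB κ) * x + (1 / κ - (1 - gB κ) / (κ + 1)) := by ring
  linarith

lemma B1 (x : ℝ) : (gA κ - 1) * (x - 1 / κ) ≤
    gB κ * ((κ + 1) * x ^ 2 - x) + 1 / (κ + 1) - x := by
  have h0 := gB_pos hκ
  have h := quad_nonneg (x := x) (show 0 < gB κ * (κ + 1) by positivity) (disc_B1 hκ)
  have e : gB κ * ((κ + 1) * x ^ 2 - x) + 1 / (κ + 1) - x - (gA κ - 1) * (x - 1 / κ) =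
    gB κ * (κ + 1) * x ^ 2 - (gA κ + gB κ) * x + (1 / (κ + 1) + (gA κ - 1) / κ) := by ring
  linarith

lemma A_nonneg (x : ℝ) : 0 ≤ gA κ * (κ * x ^ 2 - x) + 1 / κ := by
  have h0 := gA_pos hκ
  have h5 := q_pos hκ
  have h1 : gA κ ≤ 4 := by
    unfold gA
    rw [div_le_iff₀ h5]
    nlinarith [sq_nonneg (κ - 1)]
  have h4 : κ ≠ 0 := by positivity
  have h := quad_nonneg (a := gA κ * κ) (b := gA κ) (c := 1 / κ) (x := x) (by positivity) (by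
    have : 4 * (gA κ * κ) * (1 / κ) = 4 * gA κ := by field_simp
    rw [this]
    nlinarith)
  linarith

lemma B_nonneg (x : ℝ) : 0 ≤ gB κ * ((κ + 1) * x ^ 2 - x) + 1 / (κ + 1) := by
  have h0 := gB_pos hκ
  have h1 : gB κ ≤ 4 := by
    have := gB_sub_nonneg hκ
    linarith
  have h4 : κ + 1 ≠ 0 := by positivity
  have h := quad_nonneg (a := gB κ * (κ + 1)) (b := gB κ) (c := 1 / (κ + 1)) (x := x)
    (by positivity) (by
    have : 4 * (gB κ * (κ + 1)) * (1 / (κ + 1)) = 4 * gB κ := by field_simp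
    rw [this]
    nlinarith)
  linarith

end

/-- The inverse of `K - 1 + 1 / K`. -/
noncomputable def rr (K : ℝ) : ℝ := K / (K ^ 2 - K + 1)

/-- Contribution of one edge of size `K` and weight `x` to one of its vertices. -/
noncomputable def Fr (κ K x : ℝ) : ℝ :=
  (κ ^ 3 / (κ - 1) * (x - K * (x * rr K) + (K - 1) * (x * (x * rr K))) + 1) / K

lemma Fr_one {κ : ℝ} (x : ℝ) : Fr κ 1 x = 1 := by
  unfold Fr rr
  norm_num

lemma Fr_A {κ : ℝ} (hκ : 2 ≤ κ) (x : ℝ) : Fr κ κ x = gA κ * (κ * x ^ 2 - x) + 1 / κ := by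
  have h1 := (q_pos hκ).ne'
  have h2 : κ ≠ 0 := by positivity
  have h3 : κ - 1 ≠ 0 := by
    have : 0 < κ - 1 := by linarith
    exact this.ne'
  unfold Fr rr gA
  obtain ⟨q, hq⟩ : ∃ q, q = κ ^ 2 - κ + 1 := ⟨_, rfl⟩
  rw [← hq] at h1 ⊢
  field_simp
  rw [hq]
  ring

lemma Fr_B {κ : ℝ} (hκ : 2 ≤ κ) (x : ℝ) :
    Fr κ (κ + 1) x = gB κ * ((κ + 1) * x ^ 2 - x) + 1 / (κ + 1) := by
  have h1 : (κ + 1) ^ 2 - (κ + 1) + 1 ≠ 0 := by
    have : 0 < (κ + 1) ^ 2 - (κ + 1) + 1 := by nlinarith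
    exact this.ne'
  have h2 : κ + 1 ≠ 0 := by positivity
  have h3 : κ - 1 ≠ 0 := by
    have : 0 < κ - 1 := by linarith
    exact this.ne'
  have h4 : gB κ = κ ^ 4 / ((κ - 1) * ((κ + 1) ^ 2 - (κ + 1) + 1) * (κ + 1)) := by
    unfold gB
    congr 1
    ring
  rw [h4]
  unfold Fr rr
  obtain ⟨q, hq⟩ : ∃ q, q = (κ + 1) ^ 2 - (κ + 1) + 1 := ⟨_, rfl⟩
  rw [← hq] at h1 ⊢
  field_simp
  rw [hq]
  ring

/-- The inequality at a vertex. -/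
lemma vertex_nonneg {E : Type*} (N : Finset E) (K : E → ℕ) (x : E → ℝ) (k : ℕ) (hk : 2 ≤ k)
    (hK : ∀ e ∈ N, K e = 1 ∨ K e = k ∨ K e = k + 1) (e : E) (he : e ∈ N) :
    0 ≤ Fr k (K e) (x e) := by
  have hκ : (2:ℝ) ≤ (k:ℝ) := by exact_mod_cast hk
  rcases hK e he with h | h | h
  · rw [h, Nat.cast_one, Fr_one]
    norm_num
  · rw [h, Fr_A hκ]
    exact A_nonneg hκ _
  · rw [h, Nat.cast_add, Nat.cast_one, Fr_B hκ]
    exact B_nonneg hκ _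

lemma vertex_sum {E : Type*} (N : Finset E) (K : E → ℕ) (x : E → ℝ) (k : ℕ) (hk : 2 ≤ k)
    (hK : ∀ e ∈ N, K e = 1 ∨ K e = k ∨ K e = k + 1) (hx : ∑ e ∈ N, x e = 1) :
    1 ≤ ∑ e ∈ N, Fr k (K e) (x e) := by
  have hκ : (2:ℝ) ≤ (k:ℝ) := by exact_mod_cast hk
  by_cases h1 : ∃ e ∈ N, K e = 1
  · obtain ⟨e, he, hKe⟩ := h1
    have := Finset.single_le_sum (f := fun e => Fr k (K e) (x e))
      (fun f hf => vertex_nonneg N K x k hk hK f hf) he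
    simp only [hKe, Nat.cast_one, Fr_one] at this
    exact this
  push Not at h1
  rcases Nat.lt_or_ge k N.card with hd | hd
  · -- degree at least k + 1
    have h2 : ∑ e ∈ N, (x e + (1 - gB k) * (1 / ((k:ℝ) + 1) - x e)) ≤
        ∑ e ∈ N, Fr k (K e) (x e) := by
      refine Finset.sum_le_sum fun e he => ?_
      rcases hK e he with h | h | h
      · exact absurd h (h1 e he)
      · rw [h, Fr_A hκ]
        have := A2 hκ (x e)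
        linarith
      · rw [h, Nat.cast_add, Nat.cast_one, Fr_B hκ]
        have := B2 hκ (x e)
        linarith
    refine le_trans ?_ h2
    rw [Finset.sum_add_distrib, ← Finset.mul_sum, Finset.sum_sub_distrib, hx, Finset.sum_const,
      nsmul_eq_mul]
    have h3 : (1:ℝ) ≤ (N.card : ℝ) * (1 / ((k:ℝ) + 1)) := by
      rw [mul_one_div, le_div_iff₀ (by positivity)]
      have : ((k + 1 : ℕ) : ℝ) ≤ (N.card : ℝ) := by exact_mod_cast hd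
      push_cast at this
      linarith
    have := mul_nonneg (gB_sub_nonneg hκ) (sub_nonneg.2 h3)
    linarith
  · have h2 : ∑ e ∈ N, (x e + (gA k - 1) * (x e - 1 / (k:ℝ))) ≤
        ∑ e ∈ N, Fr k (K e) (x e) := by
      refine Finset.sum_le_sum fun e he => ?_
      rcases hK e he with h | h | h
      · exact absurd h (h1 e he)
      · rw [h, Fr_A hκ]
        have := A1 hκ (x e)
        linarith
      · rw [h, Nat.cast_add, Nat.cast_one, Fr_B hκ]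
        have := B1 hκ (x e)
        linarith
    refine le_trans ?_ h2
    rw [Finset.sum_add_distrib, ← Finset.mul_sum, Finset.sum_sub_distrib, hx, Finset.sum_const,
      nsmul_eq_mul]
    have h3 : (N.card : ℝ) * (1 / (k:ℝ)) ≤ 1 := by
      rw [mul_one_div, div_le_one (by positivity)]
      exact_mod_cast hd
    have := mul_nonneg (gA_sub_nonneg hκ) (sub_nonneg.2 h3)
    linarith

end Pool.Agent.W842.FKS
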